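import Pool.Agent.Helper38.Curl.Rep

open MeasureTheory Set Filter Topology Metric
open scoped ContDiff RealInnerProductSpace
open Pool.Agent.Helper38.Curl

namespace Pool.Agent.Helper11.Curl

abbrev E2 := EuclideanSpace ℝ (Fin 2)

theorem norm_sq_split (z : E) : ‖z‖ ^ 2 = ‖horiz z‖ ^ 2 + (z 2) ^ 2 := by
  rw [EuclideanSpace.norm_sq_eq, EuclideanSpace.norm_sq_eq, Fin.sum_univ_three, Fin.sum_univ_two]
  simp [horiz]

theorem horiz_sub (a b : E) : horiz (a - b) = horiz a - horiz b := by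
  ext i; fin_cases i <;> simp [horiz]

theorem horiz_add (a b : E) : horiz (a + b) = horiz a + horiz b := by
  ext i; fin_cases i <;> simp [horiz]

/-- The graph function of a sphere near the pole, cut off. -/
noncomputable def G (ρ : ℝ) (h : E2) : ℝ := Real.sqrt (ρ ^ 2 - (min ‖h‖ (ρ / 2)) ^ 2)

theorem G_dist {ρ : ℝ} (hρ : 0 < ρ) (h h' : E2) : |G ρ h - G ρ h'| ≤ ‖h - h'‖ := by
  unfold G
  set m := min ‖h‖ (ρ / 2) with hm
  set m' := min ‖h'‖ (ρ / 2) with hm'
  have m0 : 0 ≤ m := le_min (norm_nonneg _) (by positivity)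
  have m0' : 0 ≤ m' := le_min (norm_nonneg _) (by positivity)
  have m1 : m ≤ ρ / 2 := min_le_right _ _
  have m1' : m' ≤ ρ / 2 := min_le_right _ _
  have e1 : 0 ≤ ρ ^ 2 - m ^ 2 := by nlinarith
  have e1' : 0 ≤ ρ ^ 2 - m' ^ 2 := by nlinarith
  set a := Real.sqrt (ρ ^ 2 - m ^ 2) with ha
  set b := Real.sqrt (ρ ^ 2 - m' ^ 2) with hb
  have a2 : a ^ 2 = ρ ^ 2 - m ^ 2 := Real.sq_sqrt e1
  have b2 : b ^ 2 = ρ ^ 2 - m' ^ 2 := Real.sq_sqrt e1'
  have a0 : 0 ≤ a := Real.sqrt_nonneg _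
  have b0 : 0 ≤ b := Real.sqrt_nonneg _
  have aρ : ρ / 2 ≤ a := by
    apply Real.le_sqrt_of_sq_le; nlinarith
  have bρ : ρ / 2 ≤ b := by
    apply Real.le_sqrt_of_sq_le; nlinarith
  have hmm : |m - m'| ≤ ‖h - h'‖ := by
    have h1 : |m - m'| ≤ |‖h‖ - ‖h'‖| := by
      have := abs_min_sub_min_le_max ‖h‖ (ρ / 2) ‖h'‖ (ρ / 2)
      simpa using this
    exact h1.trans (abs_norm_sub_norm_le _ _)
  refine le_trans ?_ hmm
  have key : (a - b) * (a + b) = (m' - m) * (m + m') := by nlinarith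
  have hab : 0 < a + b := by linarith
  have h3 : |a - b| * (a + b) = |m - m'| * (m + m') := by
    have e2 : |a - b| * (a + b) = |(a - b) * (a + b)| := by rw [abs_mul, abs_of_pos hab]
    rw [e2, key, abs_mul, abs_of_nonneg (by linarith : (0:ℝ) ≤ m + m'), abs_sub_comm]
  have h4 : |m - m'| * (m + m') ≤ |m - m'| * (a + b) := by
    apply mul_le_mul_of_nonneg_left _ (abs_nonneg _)
    linarith
  exact le_of_mul_le_mul_right (h3.le.trans h4) hab

theorem exists_iso {n m : E} (h : ‖n‖ = ‖m‖) : ∃ T : E ≃ₗᵢ[ℝ] E, T n = m :=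
  ⟨_, Submodule.reflection_sub h⟩

theorem norm_bv2 : ‖bv 2‖ = 1 := by simp [bv]

theorem outer_graph {q p : E} {ρ : ℝ} (hρ : 0 < ρ) (hp : ‖p - q‖ = ρ) :
    ∃ (T : E ≃ₗᵢ[ℝ] E) (φ : E2 → ℝ), LipschitzWith 1 φ ∧
      ∀ y ∈ ball p (ρ / 4), (ρ < ‖y - q‖ ↔ φ (horiz (T y)) < T y 2) := by
  obtain ⟨T, hT⟩ := exists_iso (n := p - q) (m := ρ • bv 2)
    (by rw [norm_smul, norm_bv2, hp]; simp [abs_of_pos hρ])
  refine ⟨T, fun h => (T q) 2 + G ρ (h - horiz (T q)), ?_, ?_⟩
  · apply LipschitzWith.of_dist_le_mul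
    intro h h'
    rw [Real.dist_eq, dist_eq_norm]
    have := G_dist hρ (h - horiz (T q)) (h' - horiz (T q))
    simp only [sub_sub_sub_cancel_right] at this
    simpa using this
  · intro y hy
    set z := T (y - q) with hz
    have hzy : T y = z + T q := by rw [hz, map_sub]; abel
    have hnz : ‖y - q‖ = ‖z‖ := (T.norm_map _).symm
    have hsmall : ‖z - ρ • bv 2‖ < ρ / 4 := by
      rw [← hT, hz, ← map_sub, T.norm_map]
      rw [mem_ball, dist_eq_norm] at hy
      simpa using hy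
    have hsp := norm_sq_split (z - ρ • bv 2)
    have hh : horiz (z - ρ • bv 2) = horiz z := by
      ext i; fin_cases i <;> simp [horiz, bv]
    have h2 : (z - ρ • bv 2) 2 = z 2 - ρ := by simp [bv]
    rw [hh, h2] at hsp
    have hsq : ‖z - ρ • bv 2‖ ^ 2 < (ρ / 4) ^ 2 := by
      have := norm_nonneg (z - ρ • bv 2); nlinarith
    have hz2 : 0 < z 2 := by nlinarith [sq_nonneg ‖horiz z‖]
    have hh4 : ‖horiz z‖ < ρ / 4 := by
      nlinarith [sq_nonneg (z 2 - ρ), norm_nonneg (horiz z)]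
    have hmin : min ‖horiz z‖ (ρ / 2) = ‖horiz z‖ := min_eq_left (by linarith)
    have hG : (T q) 2 + G ρ (horiz (T y) - horiz (T q)) < T y 2 ↔
        Real.sqrt (ρ ^ 2 - ‖horiz z‖ ^ 2) < z 2 := by
      rw [hzy, horiz_add, add_sub_cancel_right]
      unfold G
      rw [hmin]
      simp [add_comm]
    rw [hG, hnz]
    have hsz := norm_sq_split z
    rw [Real.sqrt_lt' hz2]
    constructor
    · intro h
      nlinarith
    · intro h
      nlinarith [norm_nonneg z]

theorem inner_graph {q p : E} {ρ : ℝ} (hρ : 0 < ρ) (hp : ‖p - q‖ = ρ) :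
    ∃ (T : E ≃ₗᵢ[ℝ] E) (φ : E2 → ℝ), LipschitzWith 1 φ ∧
      ∀ y ∈ ball p (ρ / 4), (‖y - q‖ < ρ ↔ φ (horiz (T y)) < T y 2) := by
  obtain ⟨T, hT⟩ := exists_iso (n := p - q) (m := -(ρ • bv 2))
    (by rw [norm_neg, norm_smul, norm_bv2, hp]; simp [abs_of_pos hρ])
  refine ⟨T, fun h => (T q) 2 - G ρ (h - horiz (T q)), ?_, ?_⟩
  · apply LipschitzWith.of_dist_le_mul
    intro h h'
    rw [Real.dist_eq, dist_eq_norm]
    have := G_dist hρ (h' - horiz (T q)) (h - horiz (T q))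
    simp only [sub_sub_sub_cancel_right] at this
    rw [norm_sub_rev] at this
    simpa using this
  · intro y hy
    set z := T (y - q) with hz
    have hzy : T y = z + T q := by rw [hz, map_sub]; abel
    have hnz : ‖y - q‖ = ‖z‖ := (T.norm_map _).symm
    have hsmall : ‖z + ρ • bv 2‖ < ρ / 4 := by
      have : z + ρ • bv 2 = T (y - p) := by
        have h1 : ρ • bv 2 = -T (p - q) := by rw [hT, neg_neg]
        rw [h1, hz, ← map_neg, ← map_add]
        congr 1
        abel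
      rw [this, T.norm_map]
      rw [mem_ball, dist_eq_norm] at hy
      exact hy
    have hsp := norm_sq_split (z + ρ • bv 2)
    have hh : horiz (z + ρ • bv 2) = horiz z := by
      ext i; fin_cases i <;> simp [horiz, bv]
    have h2 : (z + ρ • bv 2) 2 = z 2 + ρ := by simp [bv]
    rw [hh, h2] at hsp
    have hsq : ‖z + ρ • bv 2‖ ^ 2 < (ρ / 4) ^ 2 := by
      have := norm_nonneg (z + ρ • bv 2); nlinarith
    have hz2 : 0 < -z 2 := by nlinarith [sq_nonneg ‖horiz z‖]
    have hh4 : ‖horiz z‖ < ρ / 4 := by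
      nlinarith [sq_nonneg (z 2 + ρ), norm_nonneg (horiz z)]
    have hmin : min ‖horiz z‖ (ρ / 2) = ‖horiz z‖ := min_eq_left (by linarith)
    have hG : (T q) 2 - G ρ (horiz (T y) - horiz (T q)) < T y 2 ↔
        -z 2 < Real.sqrt (ρ ^ 2 - ‖horiz z‖ ^ 2) := by
      rw [hzy, horiz_add, add_sub_cancel_right]
      unfold G
      rw [hmin]
      have : (z + T q) 2 = z 2 + (T q) 2 := by simp
      rw [this]
      constructor <;> intro h <;> linarith
    rw [hG, hnz]
    have hsz := norm_sq_split z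
    rw [Real.lt_sqrt hz2.le]
    constructor
    · intro h
      nlinarith [norm_nonneg z]
    · intro h
      nlinarith [norm_nonneg z]

theorem lipDom_ball_diff {R : ℝ} (hR : 0 < R) (t : Finset (E × ℝ)) (hpos : ∀ p ∈ t, 0 < p.2)
    (hin : ∀ p ∈ t, closedBall p.1 p.2 ⊆ ball 0 R)
    (hd : (t : Set (E × ℝ)).PairwiseDisjoint fun p => closedBall p.1 p.2) :
    LipDom (ball 0 R \ ⋃ p ∈ t, closedBall p.1 p.2) := by
  have hcl : IsClosed (⋃ p ∈ t, closedBall p.1 p.2) :=
    isClosed_biUnion_finset fun p _ => isClosed_closedBall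
  have hopen : IsOpen (ball (0 : E) R \ ⋃ p ∈ t, closedBall p.1 p.2) := isOpen_ball.sdiff hcl
  refine ⟨hopen, isBounded_ball.subset sdiff_subset, ?_⟩
  intro p hp
  rw [hopen.frontier_eq] at hp
  obtain ⟨hpc, hpn⟩ := hp
  have hpR : ‖p‖ ≤ R := by
    have : p ∈ closedBall (0 : E) R := by
      refine closure_minimal ?_ isClosed_closedBall hpc
      exact sdiff_subset.trans ball_subset_closedBall
    simpa using this
  rcases hpR.eq_or_lt with hpe | hpl
  · -- outer boundary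
    obtain ⟨T, φ, hφ, h⟩ := inner_graph (q := 0) (p := p) hR (by simpa using hpe)
    have hpK : p ∉ ⋃ p ∈ t, closedBall p.1 p.2 := by
      intro hK
      rw [mem_iUnion₂] at hK
      obtain ⟨p', hp', hm⟩ := hK
      have := hin p' hp' hm
      rw [mem_ball, dist_zero_right] at this
      linarith
    obtain ⟨r1, hr1, hsub⟩ := Metric.isOpen_iff.1 hcl.isOpen_compl p hpK
    refine ⟨T, 1, φ, min (R / 4) r1, lt_min (by positivity) hr1, hφ, ?_⟩
    intro y hy
    have hy1 : y ∈ ball p (R / 4) := ball_subset_ball (min_le_left _ _) hy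
    have hy2 : y ∉ ⋃ p ∈ t, closedBall p.1 p.2 := hsub (ball_subset_ball (min_le_right _ _) hy)
    rw [← h y hy1]
    constructor
    · intro hyΩ
      have := hyΩ.1
      simpa using this
    · intro hyR
      exact ⟨by simpa using hyR, hy2⟩
  · -- boundary of a hole
    have hpK : p ∈ ⋃ p ∈ t, closedBall p.1 p.2 := by
      by_contra hK
      exact hpn ⟨by simpa using hpl, hK⟩
    rw [mem_iUnion₂] at hpK
    obtain ⟨⟨q, ρ⟩, hq, hpq⟩ := hpK
    simp only at hpq
    have hρ : 0 < ρ := hpos _ hq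
    have hge : ρ ≤ ‖p - q‖ := by
      by_contra hlt
      push Not at hlt
      have hpb : p ∈ ball q ρ := by rw [mem_ball, dist_eq_norm]; exact hlt
      rw [_root_.mem_closure_iff] at hpc
      obtain ⟨y, hy1, hy2⟩ := hpc _ isOpen_ball hpb
      exact hy2.2 (mem_iUnion₂.2 ⟨(q, ρ), hq, ball_subset_closedBall hy1⟩)
    have heq : ‖p - q‖ = ρ := by
      rw [mem_closedBall, dist_eq_norm] at hpq
      exact le_antisymm hpq hge
    obtain ⟨T, φ, hφ, h⟩ := outer_graph hρ heq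
    have hcl' : IsClosed (⋃ p ∈ t.erase (q, ρ), closedBall p.1 p.2) :=
      isClosed_biUnion_finset fun p _ => isClosed_closedBall
    have hpK' : p ∉ ⋃ p ∈ t.erase (q, ρ), closedBall p.1 p.2 := by
      intro hK
      rw [mem_iUnion₂] at hK
      obtain ⟨p', hp', hm⟩ := hK
      rw [Finset.mem_erase] at hp'
      have hdis := hd (Finset.mem_coe.2 hp'.2) (Finset.mem_coe.2 hq) hp'.1
      exact (Set.disjoint_left.1 hdis) hm hpq
    have hop : IsOpen (ball (0 : E) R ∩ (⋃ p ∈ t.erase (q, ρ), closedBall p.1 p.2)ᶜ) :=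
      isOpen_ball.inter hcl'.isOpen_compl
    obtain ⟨r1, hr1, hsub⟩ := Metric.isOpen_iff.1 hop p ⟨by simpa using hpl, hpK'⟩
    refine ⟨T, 1, φ, min (ρ / 4) r1, lt_min (by positivity) hr1, hφ, ?_⟩
    intro y hy
    have hy1 : y ∈ ball p (ρ / 4) := ball_subset_ball (min_le_left _ _) hy
    have hy2 := hsub (ball_subset_ball (min_le_right _ _) hy)
    rw [← h y hy1]
    constructor
    · intro hyΩ
      by_contra hle
      push Not at hle
      apply hyΩ.2
      refine mem_iUnion₂.2 ⟨(q, ρ), hq, ?_⟩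
      simp only [mem_closedBall, dist_eq_norm]
      exact hle
    · intro hyR
      refine ⟨hy2.1, ?_⟩
      intro hK
      rw [mem_iUnion₂] at hK
      obtain ⟨p', hp', hm⟩ := hK
      by_cases hpp : p' = (q, ρ)
      · subst hpp
        simp only [mem_closedBall, dist_eq_norm] at hm
        linarith
      · exact hy2.2 (mem_iUnion₂.2 ⟨p', Finset.mem_erase.2 ⟨hpp, hp'⟩, hm⟩)

end Pool.Agent.Helper11.Curl
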